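import Pool.Agent.H77.TF.Stm

/-! Project TF (helper77), module SUF (helper75): blocking arrangements are free. -/

set_option autoImplicit false

open MvPolynomial Module

namespace Pool.Agent.H75.TF

open Pool.Agent.H77.TF

noncomputable section

variable {K : Type} [Field K] {l : ℕ} {ν : Type}

/-! ### Linear forms and Frobenius fields -/

lemma lin_hom (a : Fin l → K) : (lin a).IsHomogeneous 1 := by
  unfold lin
  exact IsHomogeneous.sum _ _ _ fun i _ => isHomogeneous_C_mul_X _ _

lemma lin_smul (c : K) (a : Fin l → K) : lin (c • a) = C c * lin a := by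
  unfold lin
  rw [Finset.mul_sum]
  refine Finset.sum_congr rfl fun i _ => ?_
  rw [Pi.smul_apply, smul_eq_mul, C_mul]
  ring

lemma lin_ne_zero (h : S_PRI) (a : Fin l → K) (ha : a ≠ 0) : lin a ≠ 0 :=
  (h K l a ha).1.ne_zero

lemma evl_frob [Fintype K] (a : Fin l → K) (k : ℕ) :
    evl a (frob K l k) = lin a ^ (Fintype.card K ^ k) := by
  classical
  obtain ⟨p, hp⟩ := CharP.exists K
  have := hp
  obtain ⟨n, hp', hn⟩ := FiniteField.card K p
  have : Fact p.Prime := ⟨hp'⟩
  have : CharP (MvPolynomial (Fin l) K) p := inferInstance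
  have : ExpChar (MvPolynomial (Fin l) K) p := ExpChar.prime hp'
  have h1 : Fintype.card K ^ k = p ^ ((n : ℕ) * k) := by rw [hn, pow_mul]
  unfold evl lin frob
  rw [h1, sum_pow_char_pow]
  refine Finset.sum_congr rfl fun i _ => ?_
  rw [mul_pow, ← C_pow, ← h1, FiniteField.pow_card_pow]

lemma frob_mem [Fintype K] (A : ν → Fin l → K) (k : ℕ) : frob K l k ∈ LD A := by
  intro i
  rw [evl_frob]
  exact dvd_pow_self _ (pow_ne_zero _ Fintype.card_ne_zero)

lemma frob_hom [Fintype K] (k : ℕ) (i : Fin l) :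
    (frob K l k i).IsHomogeneous (Fintype.card K ^ k) :=
  isHomogeneous_X_pow _ _

/-! ### Determinants -/

lemma det_hom (M : Matrix (Fin l) (Fin l) (MvPolynomial (Fin l) K)) (e : Fin l → ℕ)
    (h : ∀ k i, (M k i).IsHomogeneous (e k)) : M.det.IsHomogeneous (∑ k, e k) := by
  rw [Matrix.det_apply]
  refine IsHomogeneous.sum _ _ _ fun σ _ => ?_
  have h1 : (∏ i, M (σ i) i).IsHomogeneous (∑ i, e (σ i)) :=
    IsHomogeneous.prod _ _ _ fun i _ => h (σ i) i
  rw [Equiv.sum_comp σ e] at h1
  rcases Int.units_eq_one_or (Equiv.Perm.sign σ) with h2 | h2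
  · rw [h2, one_smul]
    exact h1
  · rw [h2]
    have h3 : (-1 : ℤˣ) • (∏ i, M (σ i) i) = -(∏ i, M (σ i) i) := by
      rw [Units.neg_smul, one_smul]
    rw [h3]
    exact (homogeneousSubmodule (Fin l) K _).neg_mem h1

section

variable [Fintype K] {m : ℕ}

/-- the determinant of `θ_0, …, θ_(m-1), φ` -/
def D (K : Type) [Field K] [Fintype K] (m : ℕ) (φ : Fin (m + 1) → MvPolynomial (Fin (m + 1)) K) :
    MvPolynomial (Fin (m + 1)) K :=
  ((Matrix.of fun k : Fin (m + 1) => frob K (m + 1) (k : ℕ)).updateRow (Fin.last m) φ).det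

lemma D_add (φ ψ : Fin (m + 1) → MvPolynomial (Fin (m + 1)) K) : D K m (φ + ψ) = D K m φ + D K m ψ :=
  Matrix.det_updateRow_add _ _ _ _

lemma D_smul (s : MvPolynomial (Fin (m + 1)) K) (φ : Fin (m + 1) → MvPolynomial (Fin (m + 1)) K) :
    D K m (s • φ) = s * D K m φ :=
  Matrix.det_updateRow_smul _ _ _ _

lemma D_frob (k : Fin m) : D K m (frob K (m + 1) (k : ℕ)) = 0 := by
  have h := Matrix.det_updateRow_eq_zero (M := Matrix.of fun k : Fin (m + 1) => frob K (m + 1) (k : ℕ))
    (i := k.castSucc) (j := Fin.last m) (Fin.castSucc_lt_last k).ne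
  exact h

/-- `D` as a linear map -/
def DL (K : Type) [Field K] [Fintype K] (m : ℕ) :
    (Fin (m + 1) → MvPolynomial (Fin (m + 1)) K) →ₗ[MvPolynomial (Fin (m + 1)) K]
      MvPolynomial (Fin (m + 1)) K where
  toFun := D K m
  map_add' := D_add
  map_smul' := D_smul

lemma D_hom (N : ℕ) (φ : Fin (m + 1) → MvPolynomial (Fin (m + 1)) K)
    (h : ∀ i, (φ i).IsHomogeneous N) :
    (D K m φ).IsHomogeneous (∑ k ∈ Finset.range m, Fintype.card K ^ k + N) := by
  have h1 := det_hom ((Matrix.of fun k : Fin (m + 1) => frob K (m + 1) (k : ℕ)).updateRow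
    (Fin.last m) φ) (fun k => if (k : ℕ) < m then Fintype.card K ^ (k : ℕ) else N) (by
      intro k i
      by_cases hk : (k : ℕ) < m
      · rw [if_pos hk, Matrix.updateRow_ne (by
          intro h2
          rw [h2, Fin.val_last] at hk
          exact lt_irrefl _ hk)]
        exact frob_hom _ _
      · have h2 : k = Fin.last m := Fin.ext (by
          rw [Fin.val_last]
          have := k.2
          omega)
        rw [if_neg hk, h2, Matrix.updateRow_self]
        exact h i)
  rw [Fin.sum_univ_castSucc] at h1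
  have h3 : ∀ k : Fin m, (if ((k.castSucc : Fin (m + 1)) : ℕ) < m then
      Fintype.card K ^ ((k.castSucc : Fin (m + 1)) : ℕ) else N) = Fintype.card K ^ (k : ℕ) := by
    intro k
    rw [if_pos (by rw [Fin.val_castSucc]; exact k.2), Fin.val_castSucc]
  simp only [h3, Fin.val_last, lt_irrefl, if_false] at h1
  rw [Finset.sum_range]
  exact h1

/-- homogeneous components of a vector field -/
def cmp (N : ℕ) (φ : Fin l → MvPolynomial (Fin l) K) : Fin l → MvPolynomial (Fin l) K :=
  fun i => homogeneousComponent N (φ i)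

lemma dvd_comp (a : Fin l → K) (N : ℕ) (f : MvPolynomial (Fin l) K) (h : lin a ∣ f) :
    lin a ∣ homogeneousComponent N f := by
  let _ : GradedAlgebra (homogeneousSubmodule (Fin l) K) := MvPolynomial.gradedAlgebra
  rw [← Ideal.mem_span_singleton] at h ⊢
  refine homogeneousComponent_mem_of_mem ?_ h N
  refine Ideal.homogeneous_span _ _ ?_
  rintro x rfl
  exact ⟨1, lin_hom a⟩

lemma cmp_mem (A : ν → Fin l → K) (N : ℕ) (φ : Fin l → MvPolynomial (Fin l) K) (h : φ ∈ LD A) :
    cmp N φ ∈ LD A := by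
  intro i
  have h1 : evl (A i) (cmp N φ) = homogeneousComponent N (evl (A i) φ) := by
    unfold evl cmp
    rw [map_sum]
    refine Finset.sum_congr rfl fun j _ => ?_
    rw [homogeneousComponent_C_mul]
  rw [h1]
  exact dvd_comp _ _ _ (h i)

/-- comparison of degrees -/
lemma D_comp (φ : Fin (m + 1) → MvPolynomial (Fin (m + 1)) K) (n : ℕ)
    (hD : (D K m φ).IsHomogeneous n) (h0 : D K m φ ≠ 0) :
    ∑ k ∈ Finset.range m, Fintype.card K ^ k ≤ n ∧
      D K m (cmp (n - ∑ k ∈ Finset.range m, Fintype.card K ^ k) φ) = D K m φ := by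
  classical
  obtain ⟨s, hs⟩ : ∃ s, s = ∑ k ∈ Finset.range m, Fintype.card K ^ k := ⟨_, rfl⟩
  rw [← hs]
  -- a common bound for the degrees
  obtain ⟨R, hR⟩ : ∃ R, ∀ i, (φ i).totalDegree < R :=
    ⟨(Finset.univ.sup fun i => (φ i).totalDegree) + 1, fun i =>
      Nat.lt_succ_of_le (Finset.le_sup (f := fun i => (φ i).totalDegree) (Finset.mem_univ i))⟩
  have hφ : φ = ∑ N ∈ Finset.range R, cmp N φ := by
    funext i
    rw [Finset.sum_apply]
    unfold cmp
    conv_lhs => rw [← sum_homogeneousComponent (φ i)]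
    refine Finset.sum_subset ?_ ?_
    · intro N hN
      rw [Finset.mem_range] at hN ⊢
      have := hR i
      omega
    · intro N _ hN
      rw [Finset.mem_range] at hN
      exact homogeneousComponent_eq_zero _ _ (by omega)
  have hDs : D K m φ = ∑ N ∈ Finset.range R, D K m (cmp N φ) := by
    have h1 := map_sum (DL K m) (fun N => cmp N φ) (Finset.range R)
    rw [← hφ] at h1
    exact h1
  have hcmp : ∀ N, (D K m (cmp N φ)).IsHomogeneous (s + N) := by
    intro N
    rw [hs]
    exact D_hom N _ fun i => homogeneousComponent_isHomogeneous _ _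
  have h2 : D K m φ = ∑ N ∈ Finset.range R, if n = s + N then D K m (cmp N φ) else 0 := by
    have h3 : homogeneousComponent n (D K m φ) = D K m φ := homogeneousComponent_eq_self hD
    conv_lhs => rw [← h3, hDs, map_sum]
    refine Finset.sum_congr rfl fun N _ => ?_
    exact homogeneousComponent_of_mem (hcmp N)
  have hle : s ≤ n := by
    by_contra hlt
    apply h0
    rw [h2]
    refine Finset.sum_eq_zero fun N _ => ?_
    rw [if_neg (by omega)]
  refine ⟨hle, ?_⟩
  rw [h2]
  by_cases hN : n - s < R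
  · rw [Finset.sum_eq_single (n - s)]
    · rw [if_pos (by omega)]
    · intro N _ hN'
      rw [if_neg (by omega)]
    · intro h3
      exact absurd (Finset.mem_range.2 hN) h3
  · exfalso
    apply h0
    rw [h2]
    refine Finset.sum_eq_zero fun N hN' => ?_
    rw [Finset.mem_range] at hN'
    rw [if_neg (by omega)]

/-! ### The induction -/

/-- the map to the projective space -/
def pt (A : ν → Fin l → K) (hA : ∀ i, A i ≠ 0) (i : ν) : Projectivization K (Fin l → K) :=
  Projectivization.mk K (A i) (hA i)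

lemma pt_inj (A : ν → Fin l → K) (hA : Simple A) : Function.Injective (pt A hA.1) := by
  intro i j hij
  by_contra hne
  obtain ⟨c, hc⟩ := (Projectivization.mk_eq_mk_iff' K _ _ _ _).1 hij
  exact hA.2 i j hne c hc.symm

lemma full_case (mdt : S_MDT) [Fintype ν] (A : ν → Fin (m + 1) → K) (hA : Simple A)
    (hs : Function.Surjective (pt A hA.1)) :
    ∃ φ ∈ LD A, ∃ c : K, c ≠ 0 ∧ D K m φ = C c * ∏ i, lin (A i) := by
  classical
  obtain ⟨c, hc, hdet⟩ := mdt K (m + 1)
  have hb : Function.Bijective (pt A hA.1) := ⟨pt_inj A hA, hs⟩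
  have h1 : ∏ᶠ p : Projectivization K (Fin (m + 1) → K), lin p.rep = ∏ i, lin (pt A hA.1 i).rep := by
    rw [← finprod_eq_prod_of_fintype]
    exact (finprod_eq_of_bijective (pt A hA.1) hb fun _ => rfl).symm
  have h2 : ∀ i, ∃ a : Kˣ, lin (pt A hA.1 i).rep = C (a : K) * lin (A i) := by
    intro i
    obtain ⟨a, ha⟩ := Projectivization.exists_smul_eq_mk_rep K (A i) (hA.1 i)
    refine ⟨a, ?_⟩
    rw [← lin_smul]
    congr 1
    exact ha.symm
  choose a ha using h2
  refine ⟨frob K (m + 1) m, frob_mem A m, c * ∏ i, (a i : K),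
    mul_ne_zero hc (Finset.prod_ne_zero_iff.2 fun i _ => (a i).ne_zero), ?_⟩
  have h3 : D K m (frob K (m + 1) m) =
      (Matrix.of fun k i : Fin (m + 1) => frob K (m + 1) k i).det := by
    unfold D
    congr 1
    have h4 := Matrix.updateRow_eq_self (Matrix.of fun k : Fin (m + 1) => frob K (m + 1) (k : ℕ))
      (Fin.last m)
    have h5 : (Matrix.of fun k : Fin (m + 1) => frob K (m + 1) (k : ℕ)) (Fin.last m) =
        frob K (m + 1) m := by
      show frob K (m + 1) ((Fin.last m : Fin (m + 1)) : ℕ) = frob K (m + 1) m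
      rw [Fin.val_last]
    rw [h5] at h4
    rw [h4]
  rw [h3, hdet, h1, C_mul, map_prod, mul_assoc, ← Finset.prod_mul_distrib]
  congr 1
  exact Finset.prod_congr rfl fun i _ => ha i

lemma main_ind (pri : S_PRI) (mdt : S_MDT) (stp : S_STP) : ∀ (d : ℕ) (ν : Type) [Fintype ν]
    (A : ν → Fin (m + 1) → K), Simple A → BlocksD A →
    Nat.card (Projectivization K (Fin (m + 1) → K)) = Fintype.card ν + d →
    ∃ φ ∈ LD A, ∃ c : K, c ≠ 0 ∧ D K m φ = C c * ∏ i, lin (A i) := by
  classical
  intro d
  induction d with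
  | zero =>
    intro ν _ A hA hB hcard
    refine full_case mdt A hA ?_
    have h1 : Nat.card ν = Nat.card (Projectivization K (Fin (m + 1) → K)) := by
      rw [hcard, Nat.card_eq_fintype_card, add_zero]
    exact ((Nat.bijective_iff_injective_and_card (pt A hA.1)).2 ⟨pt_inj A hA, h1⟩).2
  | succ d ih =>
    intro ν _ A hA hB hcard
    have hns : ¬ Function.Surjective (pt A hA.1) := by
      intro hs
      have h1 := Nat.card_eq_of_bijective (pt A hA.1) ⟨pt_inj A hA, hs⟩
      rw [hcard, Nat.card_eq_fintype_card] at h1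
      omega
    obtain ⟨p, hp⟩ := not_forall.1 hns
    have hp' : ∀ i (c : K), A i ≠ c • p.rep := by
      intro i c hc
      apply hp
      refine ⟨i, ?_⟩
      have h1 : pt A hA.1 i = Projectivization.mk K p.rep p.rep_nonzero :=
        (Projectivization.mk_eq_mk_iff' K _ _ _ _).2 ⟨c, hc.symm⟩
      rw [h1, Projectivization.mk_rep]
    have hp'' : ∀ i (c : K), p.rep ≠ c • A i := by
      intro i c hc
      have hc0 : c ≠ 0 := by
        rintro rfl
        rw [zero_smul] at hc
        exact p.rep_nonzero hc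
      apply hp' i c⁻¹
      rw [hc, smul_smul, inv_mul_cancel₀ hc0, one_smul]
    -- the larger arrangement
    obtain ⟨A', hA'⟩ : ∃ A' : Option ν → Fin (m + 1) → K, A' = fun o => o.elim p.rep A := ⟨_, rfl⟩
    have hn : A' none = p.rep := by rw [hA']; rfl
    have hso : ∀ i, A' (some i) = A i := fun i => by rw [hA']; rfl
    have hS : Simple A' := by
      constructor
      · rintro (_ | i)
        · rw [hn]; exact p.rep_nonzero
        · rw [hso]; exact hA.1 i
      · rintro (_ | i) (_ | j) hij c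
        · exact absurd rfl hij
        · rw [hn, hso]; exact hp'' j c
        · rw [hn, hso]; exact hp' i c
        · rw [hso, hso]
          exact hA.2 i j (fun h => hij (by rw [h])) c
    have hB' : BlocksD A' := by
      intro W hW
      obtain ⟨i, hi⟩ := hB W hW
      exact ⟨some i, by rw [hso]; exact hi⟩
    obtain ⟨φ, hφ, c, hc, hD⟩ := ih (Option ν) A' hS hB' (by
      rw [hcard, Fintype.card_option]
      ring)
    have hφA : φ ∈ LD A := fun i => by
      have := hφ (some i)
      rw [hso] at this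
      exact this
    have hφh : lin p.rep ∣ evl p.rep φ := by
      have := hφ none
      rw [hn] at this
      exact this
    obtain ⟨φ', hφ', f, hf⟩ := stp K m ν A p.rep p.rep_nonzero hA.1 hp' (fun W hW _ => hB W hW) φ hφA hφh
    refine ⟨φ', hφ', c, hc, ?_⟩
    have h1 : lin p.rep * D K m φ' = D K m φ := by
      rw [← D_smul, hf]
      have h2 : (φ - ∑ k : Fin m, f k • frob K (m + 1) k) +
          ∑ k : Fin m, f k • frob K (m + 1) k = φ := by abel
      have h3 := D_add (K := K) (m := m) (φ - ∑ k : Fin m, f k • frob K (m + 1) k)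
        (∑ k : Fin m, f k • frob K (m + 1) k)
      rw [h2] at h3
      have h4 : D K m (∑ k : Fin m, f k • frob K (m + 1) k) = 0 := by
        have h5 := map_sum (DL K m) (fun k : Fin m => f k • frob K (m + 1) k) Finset.univ
        have h6 : ∀ k : Fin m, DL K m (f k • frob K (m + 1) k) = 0 := by
          intro k
          show D K m (f k • frob K (m + 1) k) = 0
          rw [D_smul, D_frob, mul_zero]
        simp only [h6, Finset.sum_const_zero] at h5
        exact h5
      rw [h4, add_zero] at h3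
      exact h3.symm
    have h7 : ∏ o, lin (A' o) = lin p.rep * ∏ i, lin (A i) := by
      rw [Fintype.prod_option, hn]
      simp only [hso]
    have h8 : lin p.rep ≠ 0 := lin_ne_zero pri _ p.rep_nonzero
    apply mul_left_cancel₀ h8
    rw [h1, hD, h7]
    ring

end

/-- SUF -/
theorem suf (pri : S_PRI) (mdt : S_MDT) (sai : S_SAI) (stp : S_STP) : S_SUF := by
  classical
  intro K _ _ l ν _ A hl hA hB
  obtain ⟨m, rfl⟩ : ∃ m, l = m + 1 := ⟨l - 1, by omega⟩
  have hle : Fintype.card ν ≤ Nat.card (Projectivization K (Fin (m + 1) → K)) := by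
    rw [← Nat.card_eq_fintype_card]
    exact Nat.card_le_card_of_injective _ (pt_inj A hA)
  obtain ⟨φ, hφ, c, hc, hD⟩ := main_ind (K := K) (m := m) pri mdt stp
    (Nat.card (Projectivization K (Fin (m + 1) → K)) - Fintype.card ν) ν A hA hB (by omega)
  have hprod : (∏ i, lin (A i)).IsHomogeneous (Fintype.card ν) := by
    have h1 := IsHomogeneous.prod Finset.univ (fun i => lin (A i)) (fun _ => 1)
      (fun i _ => lin_hom (A i))
    simpa using h1
  have hhom : (D K m φ).IsHomogeneous (Fintype.card ν) := by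
    rw [hD]
    exact hprod.C_mul c
  have h0 : D K m φ ≠ 0 := by
    rw [hD]
    refine mul_ne_zero ?_ (Finset.prod_ne_zero_iff.2 fun i _ => lin_ne_zero pri _ (hA.1 i))
    rw [Ne, C_eq_zero]
    exact hc
  obtain ⟨hsn, hDc⟩ := D_comp φ _ hhom h0
  rw [Nat.add_sub_cancel]
  refine ⟨?_, hsn⟩
  obtain ⟨N, hN⟩ : ∃ N, N = Fintype.card ν - ∑ k ∈ Finset.range m, Fintype.card K ^ k := ⟨_, rfl⟩
  rw [← hN] at hDc
  obtain ⟨w, hw⟩ : ∃ w : Fin (m + 1) → Fin (m + 1) → MvPolynomial (Fin (m + 1)) K,
      w = Function.update (fun k : Fin (m + 1) => frob K (m + 1) (k : ℕ)) (Fin.last m) (cmp N φ) :=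
    ⟨_, rfl⟩
  have hwlast : w (Fin.last m) = cmp N φ := by rw [hw, Function.update_self]
  have hwne : ∀ k : Fin (m + 1), k ≠ Fin.last m → w k = frob K (m + 1) (k : ℕ) := by
    intro k hk
    rw [hw, Function.update_of_ne hk]
  have hwLD : ∀ k, w k ∈ LD A := by
    intro k
    by_cases hk : k = Fin.last m
    · rw [hk, hwlast]
      exact cmp_mem A N φ hφ
    · rw [hwne k hk]
      exact frob_mem A _
  have hwdet : (Matrix.of w).det = C c * ∏ i, lin (A i) := by
    rw [← hD, ← hDc]
    unfold D
    rw [hw]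
    rfl
  obtain ⟨b, hb⟩ := sai K (m + 1) ν A hA w c hc hwLD hwdet
  refine ⟨b, fun j i => ?_⟩
  rw [hb]
  unfold expo
  by_cases hj : j = Fin.last m
  · rw [hj, hwlast, Fin.val_last, if_pos rfl, Nat.add_sub_cancel, ← hN]
    exact homogeneousComponent_isHomogeneous _ _
  · rw [hwne j hj, if_neg (by
      intro h
      apply hj
      apply Fin.ext
      rw [Fin.val_last]
      omega)]
    exact frob_hom _ _

end

end Pool.Agent.H75.TF
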